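import Pool.Agent.W5h42.Hess.Visc

/-!
# The optimal exponent of the Hessian measure estimate decays like the power `1 - n` of the
ellipticity ratio

For every `n ≥ 3` we show `ε*(n, lam, Lam) ≤ C (Lam / lam) ^ (1 - n)` for `Lam / lam` large, for the
two-sided class `S(lam, Lam)` of the problem.

Proof idea. We work with diagonal Hessians inside the open cone `P < R N`, `N < R P`
(`R = Lam / lam`, `P` and `N` the sums of the positive and of the negative parts of the entries). A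
one-dimensional oscillation splits a diagonal Hessian along one coordinate direction at a time.
Starting from a suitable diagonal matrix we run a random walk in the cone: in one round all positive
entries are doubled one after the other (or all negative ones), and the loss in probability per
round is at most a constant times `R ^ (1 - n)`, since a loss occurs only if `n - 1` entries
all fail to be doubled in a row, each of these failures having probability of order `1 / R`.
-/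

set_option autoImplicit false

namespace Pool.Agent.Results.MP_02db74_an.SharpExponent

open Set Filter Topology MeasureTheory
open scoped ENNReal

/-- The Euclidean space of dimension `n`. -/
abbrev E (n : ℕ) := EuclideanSpace ℝ (Fin n)

/-- The Hessian matrix of `φ` at `x`, with entries `D²φ(x)(e_i, e_j)`. -/
noncomputable def hess {n : ℕ} (φ : E n → ℝ) (x : E n) : Matrix (Fin n) (Fin n) ℝ :=
  Matrix.of fun i j =>
    fderiv ℝ (fderiv ℝ φ) x (EuclideanSpace.single i 1) (EuclideanSpace.single j 1)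

/-- The Hessian of a function of class `C²` at the point is symmetric. -/
theorem hess_isHermitian {n : ℕ} {φ : E n → ℝ} {x : E n} (h : ContDiffAt ℝ 2 φ x) :
    (hess φ x).IsHermitian := by
  ext i j
  have h1 := h.isSymmSndFDerivAt (by simp) (EuclideanSpace.single j 1)
    (EuclideanSpace.single i 1)
  simpa [hess, Matrix.conjTranspose_apply] using h1

/-- The Pucci minimal operator `lam * (sum of the positive eigenvalues) +
Lam * (sum of the negative eigenvalues)` of a symmetric matrix. -/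
noncomputable def pucciMinus {n : ℕ} (lam Lam : ℝ) {X : Matrix (Fin n) (Fin n) ℝ}
    (hX : X.IsHermitian) : ℝ :=
  lam * (∑ i ∈ Finset.univ.filter (fun i => 0 < hX.eigenvalues i), hX.eigenvalues i) +
    Lam * (∑ i ∈ Finset.univ.filter (fun i => hX.eigenvalues i < 0), hX.eigenvalues i)

/-- The Pucci maximal operator `Lam * (sum of the positive eigenvalues) +
lam * (sum of the negative eigenvalues)` of a symmetric matrix. -/
noncomputable def pucciPlus {n : ℕ} (lam Lam : ℝ) {X : Matrix (Fin n) (Fin n) ℝ}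
    (hX : X.IsHermitian) : ℝ :=
  Lam * (∑ i ∈ Finset.univ.filter (fun i => 0 < hX.eigenvalues i), hX.eigenvalues i) +
    lam * (∑ i ∈ Finset.univ.filter (fun i => hX.eigenvalues i < 0), hX.eigenvalues i)

/-- The class `S(lam, Lam)`: `u` is continuous on the open unit ball, `M⁻(D²u) ≤ 0` there in the
viscosity sense (test functions of class `C²` at the point touching from below) and
`0 ≤ M⁺(D²u)` there in the viscosity sense (test functions touching from above). -/
structure InS {n : ℕ} (lam Lam : ℝ) (u : E n → ℝ) : Prop where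
  cont : ContinuousOn u (Metric.ball 0 1)
  super : ∀ (φ : E n → ℝ) (x : E n) (hφ : ContDiffAt ℝ 2 φ x), x ∈ Metric.ball (0 : E n) 1 →
    IsLocalMin (fun y => u y - φ y) x → pucciMinus lam Lam (hess_isHermitian hφ) ≤ 0
  sub : ∀ (φ : E n → ℝ) (x : E n) (hφ : ContDiffAt ℝ 2 φ x), x ∈ Metric.ball (0 : E n) 1 →
    IsLocalMax (fun y => u y - φ y) x → 0 ≤ pucciPlus lam Lam (hess_isHermitian hφ)

/-- `P` is a paraboloid of opening `M > 0`, that is `P y = c + ⟨ℓ, y⟩ ± (M / 2) |y|²`. -/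
def IsParaboloid {n : ℕ} (M : ℝ) (P : E n → ℝ) : Prop :=
  0 < M ∧ ∃ (c : ℝ) (ℓ : E n) (s : ℝ), (s = 1 ∨ s = -1) ∧
    ∀ y, P y = c + inner ℝ ℓ y + s * (M / 2) * ‖y‖ ^ 2

/-- `P` touches `u` at `x` from above in the open unit ball. -/
def TouchesAbove {n : ℕ} (P u : E n → ℝ) (x : E n) : Prop :=
  P x = u x ∧ ∀ y ∈ Metric.ball (0 : E n) 1, u y ≤ P y

/-- `P` touches `u` at `x` from below in the open unit ball. -/
def TouchesBelow {n : ℕ} (P u : E n → ℝ) (x : E n) : Prop :=
  P x = u x ∧ ∀ y ∈ Metric.ball (0 : E n) 1, P y ≤ u y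

/-- `Θ(u, x)`: the infimum of the `M` for which there are paraboloids of opening `M` touching `u`
at `x` from above and from below in the open unit ball (`∞` if there are none). -/
noncomputable def Theta {n : ℕ} (u : E n → ℝ) (x : E n) : ℝ≥0∞ :=
  ⨅ (M : ℝ) (_ : (∃ P, IsParaboloid M P ∧ TouchesAbove P u x) ∧
    (∃ Q, IsParaboloid M Q ∧ TouchesBelow Q u x)), ENNReal.ofReal M

/-- The Hessian measure estimate with exponent `ε > 0`. -/
def HessianEstimate (n : ℕ) (lam Lam ε : ℝ) : Prop :=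
  0 < ε ∧ ∃ C : ℝ, ∀ u : E n → ℝ, InS lam Lam u →
    (∀ x ∈ Metric.ball (0 : E n) 1, |u x| ≤ 1) → ∀ t : ℝ, 0 < t →
      volume {x : E n | x ∈ Metric.ball (0 : E n) (1 / 2) ∧ ENNReal.ofReal t < Theta u x} ≤
        ENNReal.ofReal (C * t ^ (-ε))

/-- `ε*(n, lam, Lam)`: the supremum of the exponents `ε > 0` for which the Hessian measure estimate
holds. -/
noncomputable def epsStar (n : ℕ) (lam Lam : ℝ) : ℝ≥0∞ :=
  ⨆ (ε : ℝ) (_ : HessianEstimate n lam Lam ε), ENNReal.ofReal ε

/-! ### Proof -/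

open Pool.Agent.W5h42.Hess

variable {n : ℕ}

lemma pucciMinus_eq (lam Lam : ℝ) {X : Matrix (Fin n) (Fin n) ℝ} (hX : X.IsHermitian) :
    pucciMinus lam Lam hX =
      ∑ i, (lam * max (hX.eigenvalues i) 0 + Lam * min (hX.eigenvalues i) 0) := by
  unfold pucciMinus
  rw [Finset.sum_filter, Finset.sum_filter, Finset.mul_sum, Finset.mul_sum,
    ← Finset.sum_add_distrib]
  apply Finset.sum_congr rfl
  intro i _
  rcases lt_trichotomy (hX.eigenvalues i) 0 with h | h | h
  · rw [if_neg (by linarith), if_pos h, max_eq_right h.le, min_eq_left h.le]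
  · rw [h]; simp
  · rw [if_pos h, if_neg (by linarith), max_eq_left h.le, min_eq_right h.le]

lemma pucciPlus_eq (lam Lam : ℝ) {X : Matrix (Fin n) (Fin n) ℝ} (hX : X.IsHermitian) :
    pucciPlus lam Lam hX =
      ∑ i, (Lam * max (hX.eigenvalues i) 0 + lam * min (hX.eigenvalues i) 0) :=
  pucciMinus_eq Lam lam hX

lemma ofLp_line (x : E n) (j : Fin n) (r : ℝ) :
    (x + r • (EuclideanSpace.single j 1 : E n)).ofLp =
      x.ofLp + r • (Pi.single j 1 : Fin n → ℝ) := by
  ext k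
  simp [Pi.single_apply]

lemma tendsto_line (x : E n) (j : Fin n) :
    Tendsto (fun r : ℝ => x + r • (EuclideanSpace.single j 1 : E n)) (𝓝 0) (𝓝 x) := by
  have : Continuous (fun r : ℝ => x + r • (EuclideanSpace.single j 1 : E n)) := by fun_prop
  simpa using this.tendsto 0

lemma diag_le {U : (Fin n → ℝ) → ℝ} (hU : ContDiff ℝ 2 U) {φ : E n → ℝ} {x : E n}
    (hφ : ContDiffAt ℝ 2 φ x) (hmin : IsLocalMin (fun y : E n => U y.ofLp - φ y) x) (j : Fin n) :
    hess φ x j j ≤ d2 j U x.ofLp := by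
  obtain ⟨h1, h2⟩ := line_contDiffAt (e := (EuclideanSpace.single j 1 : E n)) hφ
  have h3 : ∀ᶠ r in 𝓝 (0:ℝ), HasDerivAt
      (fun r : ℝ => U (x.ofLp + r • (Pi.single j 1 : Fin n → ℝ)) -
        φ (x + r • (EuclideanSpace.single j 1 : E n)))
      (d1 j U (x.ofLp + r • (Pi.single j 1 : Fin n → ℝ)) -
        fderiv ℝ φ (x + r • (EuclideanSpace.single j 1 : E n)) (EuclideanSpace.single j 1)) r := by
    filter_upwards [h1] with r hr
    exact (hasDerivAt_line hU x.ofLp j r).sub hr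
  have h4 := (hasDerivAt_line2 hU x.ofLp j 0).sub h2
  have h5 : IsLocalMin (fun r : ℝ => U (x.ofLp + r • (Pi.single j 1 : Fin n → ℝ)) -
        φ (x + r • (EuclideanSpace.single j 1 : E n))) 0 := by
    have h6 := (tendsto_line x j).eventually hmin
    filter_upwards [h6] with r hr
    rw [ofLp_line] at hr
    simpa using hr
  have h7 := second_nonneg h3 h4 h5
  simp only [zero_smul, add_zero] at h7
  have h8 : hess φ x j j = fderiv ℝ (fderiv ℝ φ) x (EuclideanSpace.single j 1)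
    (EuclideanSpace.single j 1) := rfl
  rw [h8]
  linarith

lemma le_diag {U : (Fin n → ℝ) → ℝ} (hU : ContDiff ℝ 2 U) {φ : E n → ℝ} {x : E n}
    (hφ : ContDiffAt ℝ 2 φ x) (hmax : IsLocalMax (fun y : E n => U y.ofLp - φ y) x) (j : Fin n) :
    d2 j U x.ofLp ≤ hess φ x j j := by
  obtain ⟨h1, h2⟩ := line_contDiffAt (e := (EuclideanSpace.single j 1 : E n)) hφ
  have h3 : ∀ᶠ r in 𝓝 (0:ℝ), HasDerivAt
      (fun r : ℝ => φ (x + r • (EuclideanSpace.single j 1 : E n)) -
        U (x.ofLp + r • (Pi.single j 1 : Fin n → ℝ)))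
      (fderiv ℝ φ (x + r • (EuclideanSpace.single j 1 : E n)) (EuclideanSpace.single j 1) -
        d1 j U (x.ofLp + r • (Pi.single j 1 : Fin n → ℝ))) r := by
    filter_upwards [h1] with r hr
    exact hr.sub (hasDerivAt_line hU x.ofLp j r)
  have h4 := h2.sub (hasDerivAt_line2 hU x.ofLp j 0)
  have h5 : IsLocalMin (fun r : ℝ => φ (x + r • (EuclideanSpace.single j 1 : E n)) -
      U (x.ofLp + r • (Pi.single j 1 : Fin n → ℝ))) 0 := by
    have h6 := (tendsto_line x j).eventually hmax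
    filter_upwards [h6] with r hr
    rw [ofLp_line] at hr
    simp only [zero_smul, add_zero]
    linarith
  have h7 := second_nonneg h3 h4 h5
  simp only [zero_smul, add_zero] at h7
  have h8 : hess φ x j j = fderiv ℝ (fderiv ℝ φ) x (EuclideanSpace.single j 1)
    (EuclideanSpace.single j 1) := rfl
  rw [h8]
  linarith

lemma paraboloid_line {M : ℝ} {P : E n → ℝ} (hP : IsParaboloid M P) (x : E n) (j : Fin n) :
    ∃ A B s : ℝ, |s| ≤ 1 ∧ ∀ r : ℝ, P (x + r • (EuclideanSpace.single j 1 : E n)) =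
      A + B * r + s * M / 2 * r ^ 2 := by
  obtain ⟨_, c, ℓ, s, hs, hP⟩ := hP
  refine ⟨c + inner ℝ ℓ x + s * (M / 2) * ‖x‖ ^ 2,
    inner ℝ ℓ (EuclideanSpace.single j 1 : E n) +
      s * M * inner ℝ x (EuclideanSpace.single j 1 : E n), s, ?_, fun r => ?_⟩
  · rcases hs with rfl | rfl <;> simp
  · rw [hP, norm_add_sq_real, inner_add_right, inner_smul_right, inner_smul_right, norm_smul]
    have h1 : ‖(EuclideanSpace.single j 1 : E n)‖ = 1 := by simp
    rw [h1, mul_one, Real.norm_eq_abs, sq_abs]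
    ring

lemma hasDerivAt_par (A B c r : ℝ) :
    HasDerivAt (fun r : ℝ => A + B * r + c / 2 * r ^ 2) (B + c * r) r := by
  have h1 := (((hasDerivAt_id r).const_mul B).const_add A).add
    (((hasDerivAt_id r).pow 2).const_mul (c / 2))
  refine h1.congr_deriv ?_
  simp
  ring

lemma hasDerivAt_par2 (B c : ℝ) : HasDerivAt (fun r : ℝ => B + c * r) c 0 := by
  simpa using ((hasDerivAt_id (0:ℝ)).const_mul c).const_add B

lemma le_of_above {U : (Fin n → ℝ) → ℝ} (hU : ContDiff ℝ 2 U) {P : E n → ℝ} {x : E n} {M : ℝ}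
    (hP : IsParaboloid M P) (hx : x ∈ Metric.ball (0 : E n) 1)
    (ht : TouchesAbove P (fun y : E n => U y.ofLp) x) (j : Fin n) : d2 j U x.ofLp ≤ M := by
  obtain ⟨A, B, s, hs, hline⟩ := paraboloid_line hP x j
  have h3 : ∀ᶠ r in 𝓝 (0:ℝ), HasDerivAt
      (fun r : ℝ => (A + B * r + s * M / 2 * r ^ 2) -
        U (x.ofLp + r • (Pi.single j 1 : Fin n → ℝ)))
      ((B + s * M * r) - d1 j U (x.ofLp + r • (Pi.single j 1 : Fin n → ℝ))) r :=
    Filter.Eventually.of_forall fun r => (hasDerivAt_par A B (s * M) r).sub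
      (hasDerivAt_line hU x.ofLp j r)
  have h4 := (hasDerivAt_par2 B (s * M)).sub (hasDerivAt_line2 hU x.ofLp j 0)
  have h5 : IsLocalMin (fun r : ℝ => (A + B * r + s * M / 2 * r ^ 2) -
        U (x.ofLp + r • (Pi.single j 1 : Fin n → ℝ))) 0 := by
    have h6 := (tendsto_line x j).eventually (Metric.isOpen_ball.mem_nhds hx)
    filter_upwards [h6] with r hr
    have h7 := ht.2 _ hr
    simp only at h7
    rw [ofLp_line, hline] at h7
    have h8 := ht.1
    have h9 := hline 0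
    rw [zero_smul, add_zero] at h9
    rw [h9] at h8
    simp only [zero_smul, add_zero]
    linarith
  have h7 := second_nonneg h3 h4 h5
  simp only [zero_smul, add_zero] at h7
  have h8 : s * M ≤ M := by
    have := (abs_le.1 hs).2
    have := hP.1
    nlinarith
  linarith

lemma le_of_below {U : (Fin n → ℝ) → ℝ} (hU : ContDiff ℝ 2 U) {P : E n → ℝ} {x : E n} {M : ℝ}
    (hP : IsParaboloid M P) (hx : x ∈ Metric.ball (0 : E n) 1)
    (ht : TouchesBelow P (fun y : E n => U y.ofLp) x) (j : Fin n) : -M ≤ d2 j U x.ofLp := by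
  obtain ⟨A, B, s, hs, hline⟩ := paraboloid_line hP x j
  have h3 : ∀ᶠ r in 𝓝 (0:ℝ), HasDerivAt
      (fun r : ℝ => U (x.ofLp + r • (Pi.single j 1 : Fin n → ℝ)) -
        (A + B * r + s * M / 2 * r ^ 2))
      (d1 j U (x.ofLp + r • (Pi.single j 1 : Fin n → ℝ)) - (B + s * M * r)) r :=
    Filter.Eventually.of_forall fun r => (hasDerivAt_line hU x.ofLp j r).sub
      (hasDerivAt_par A B (s * M) r)
  have h4 := (hasDerivAt_line2 hU x.ofLp j 0).sub (hasDerivAt_par2 B (s * M))
  have h5 : IsLocalMin (fun r : ℝ => U (x.ofLp + r • (Pi.single j 1 : Fin n → ℝ)) -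
        (A + B * r + s * M / 2 * r ^ 2)) 0 := by
    have h6 := (tendsto_line x j).eventually (Metric.isOpen_ball.mem_nhds hx)
    filter_upwards [h6] with r hr
    have h7 := ht.2 _ hr
    simp only at h7
    rw [ofLp_line, hline] at h7
    have h8 := ht.1
    have h9 := hline 0
    rw [zero_smul, add_zero] at h9
    rw [h9] at h8
    simp only [zero_smul, add_zero]
    linarith
  have h7 := second_nonneg h3 h4 h5
  simp only [zero_smul, add_zero] at h7
  have h8 : -M ≤ s * M := by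
    have := (abs_le.1 hs).1
    have := hP.1
    nlinarith
  linarith

lemma theta_ge {U : (Fin n → ℝ) → ℝ} (hU : ContDiff ℝ 2 U) {x : E n}
    (hx : x ∈ Metric.ball (0 : E n) 1) (j : Fin n) :
    ENNReal.ofReal |d2 j U x.ofLp| ≤ Theta (fun y : E n => U y.ofLp) x := by
  unfold Theta
  refine le_iInf₂ fun M hM => ?_
  obtain ⟨⟨P, hP, hPt⟩, ⟨Q, hQ, hQt⟩⟩ := hM
  apply ENNReal.ofReal_le_ofReal
  rw [abs_le]
  exact ⟨le_of_below hU hQ hx hQt j, le_of_above hU hP hx hPt j⟩

lemma inS_of {U : (Fin n → ℝ) → ℝ} (hU : ContDiff ℝ 2 U) {lam Lam : ℝ} (hlam : 0 < lam)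
    (hle : lam ≤ Lam) (hK : ∀ x, Kv (Lam / lam) (fun j => d2 j U x)) :
    InS lam Lam (fun y : E n => U y.ofLp) := by
  refine ⟨?_, ?_, ?_⟩
  · have h1 : Continuous fun y : E n => U y.ofLp :=
      hU.continuous.comp (PiLp.continuous_ofLp 2 _)
    exact h1.continuousOn
  · intro φ x hφ _ hmin
    rw [pucciMinus_eq]
    set b : Fin n → ℝ := fun j => d2 j U x.ofLp with hb
    have hd : ∀ j, lam ≤ (if 0 ≤ b j then lam else Lam) ∧ (if 0 ≤ b j then lam else Lam) ≤ Lam := by
      intro j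
      split_ifs <;> constructor <;> linarith
    refine (pucci_le (hess_isHermitian hφ) hd).trans ?_
    have h1 : ∑ j, (if 0 ≤ b j then lam else Lam) * hess φ x j j ≤
        ∑ j, (lam * max (b j) 0 - Lam * max (-b j) 0) := by
      apply Finset.sum_le_sum
      intro j _
      have h2 := diag_le hU hφ hmin j
      have h3 : hess φ x j j ≤ b j := h2
      split_ifs with h
      · rw [max_eq_left h, max_eq_right (by linarith)]
        nlinarith
      · push Not at h
        rw [max_eq_right h.le, max_eq_left (by linarith)]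
        nlinarith
    refine h1.trans ?_
    rw [Finset.sum_sub_distrib, ← Finset.mul_sum, ← Finset.mul_sum]
    have h4 := (Kv_iff.1 (hK x.ofLp)).1
    rw [div_mul_eq_mul_div, lt_div_iff₀ hlam] at h4
    have h5 : (∑ j, max (b j) 0) * lam < Lam * ∑ j, max (-b j) 0 := h4
    linarith
  · intro φ x hφ _ hmax
    rw [pucciPlus_eq]
    set b : Fin n → ℝ := fun j => d2 j U x.ofLp with hb
    have hd : ∀ j, lam ≤ (if 0 ≤ b j then Lam else lam) ∧ (if 0 ≤ b j then Lam else lam) ≤ Lam := by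
      intro j
      split_ifs <;> constructor <;> linarith
    refine le_trans ?_ (le_pucci (hess_isHermitian hφ) hd)
    have h1 : ∑ j, (Lam * max (b j) 0 - lam * max (-b j) 0) ≤
        ∑ j, (if 0 ≤ b j then Lam else lam) * hess φ x j j := by
      apply Finset.sum_le_sum
      intro j _
      have h2 := le_diag hU hφ hmax j
      have h3 : b j ≤ hess φ x j j := h2
      split_ifs with h
      · rw [max_eq_left h, max_eq_right (by linarith)]
        nlinarith
      · push Not at h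
        rw [max_eq_right h.le, max_eq_left (by linarith)]
        nlinarith
    refine le_trans ?_ h1
    rw [Finset.sum_sub_distrib, ← Finset.mul_sum, ← Finset.mul_sum]
    have h4 := (Kv_iff.1 (hK x.ofLp)).2
    rw [div_mul_eq_mul_div, lt_div_iff₀ hlam] at h4
    have h5 : (∑ j, max (-b j) 0) * lam < Lam * ∑ j, max (b j) 0 := h4
    linarith

/-- the quadratic part -/
noncomputable def quad (a : Fin n → ℝ) (y : Fin n → ℝ) : ℝ := ∑ j, a j / 2 * y j ^ 2

lemma quad_contDiff (a : Fin n → ℝ) : ContDiff ℝ 2 (quad a) := by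
  unfold quad
  exact ContDiff.sum fun j _ => contDiff_const.mul ((contDiff_apply ℝ ℝ j).pow 2)

lemma d2_quad (a : Fin n → ℝ) (j : Fin n) (y : Fin n → ℝ) : d2 j (quad a) y = a j := by
  refine d2_eq_of_line (quad_contDiff a) y j (G' := fun r => a j * y j + a j * r) ?_ ?_
  · intro r
    have h1 : (fun r : ℝ => quad a (y + r • (Pi.single j 1 : Fin n → ℝ))) =
        fun r => quad a y + a j * y j * r + a j / 2 * r ^ 2 := by
      funext r
      unfold quad
      rw [← Finset.add_sum_erase _ _ (Finset.mem_univ j),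
        ← Finset.add_sum_erase Finset.univ (fun k => a k / 2 * y k ^ 2) (Finset.mem_univ j)]
      have h2 : ∑ k ∈ Finset.univ.erase j,
          a k / 2 * (y + r • (Pi.single j 1 : Fin n → ℝ)) k ^ 2 =
          ∑ k ∈ Finset.univ.erase j, a k / 2 * y k ^ 2 := by
        apply Finset.sum_congr rfl
        intro k hk
        have hkj : k ≠ j := Finset.ne_of_mem_erase hk
        simp [hkj]
      rw [h2]
      simp
      ring
    rw [h1]
    exact hasDerivAt_par (quad a y) (a j * y j) (a j) r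
  · exact hasDerivAt_par2 (a j * y j) (a j)

lemma norm_sq_sum (x : E n) : ‖x‖ ^ 2 = ∑ j, x.ofLp j ^ 2 := by
  rw [EuclideanSpace.norm_sq_eq]
  apply Finset.sum_congr rfl
  intro j _
  rw [Real.norm_eq_abs, sq_abs]

lemma abs_quad_le {a : Fin n → ℝ} (ha : ∀ j, |a j| ≤ 1) {x : E n}
    (hx : x ∈ Metric.ball (0 : E n) 1) : |quad a x.ofLp| ≤ 1 / 2 := by
  rw [mem_ball_zero_iff] at hx
  have h1 : ‖x‖ ^ 2 ≤ 1 := by
    have := norm_nonneg x
    nlinarith
  rw [norm_sq_sum] at h1
  unfold quad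
  calc |∑ j, a j / 2 * x.ofLp j ^ 2| ≤ ∑ j, |a j / 2 * x.ofLp j ^ 2| :=
        Finset.abs_sum_le_sum_abs _ _
    _ ≤ ∑ j, 1 / 2 * x.ofLp j ^ 2 := by
        apply Finset.sum_le_sum
        intro j _
        rw [abs_mul, abs_div, abs_of_pos (by norm_num : (0:ℝ) < 2),
          abs_of_nonneg (sq_nonneg (x.ofLp j))]
        apply mul_le_mul_of_nonneg_right _ (sq_nonneg _)
        linarith [ha j]
    _ = 1 / 2 * ∑ j, x.ofLp j ^ 2 := by rw [Finset.mul_sum]
    _ ≤ 1 / 2 := by linarith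

lemma ball_of_box (hn : 3 ≤ n) {x : E n}
    (hx : x.ofLp ∈ box (fun _ : Fin n => -(1 / (2 * (n:ℝ)))) (fun _ => 1 / (2 * (n:ℝ)))) :
    x ∈ Metric.ball (0 : E n) (1 / 2) := by
  rw [mem_box] at hx
  rw [mem_ball_zero_iff]
  have hn0 : (3:ℝ) ≤ n := by exact_mod_cast hn
  have h1 : ‖x‖ ^ 2 ≤ ∑ _j : Fin n, (1 / (2 * (n:ℝ))) ^ 2 := by
    rw [norm_sq_sum]
    apply Finset.sum_le_sum
    intro j _
    rw [sq_le_sq, abs_of_pos (by positivity : 0 < 1 / (2 * (n:ℝ)))]
    rw [abs_le]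
    exact ⟨(hx j).1.le, (hx j).2.le⟩
  rw [Finset.sum_const, Finset.card_univ, Fintype.card_fin, nsmul_eq_mul] at h1
  have h2 : (n:ℝ) * (1 / (2 * (n:ℝ))) ^ 2 = 1 / (4 * n) := by
    field_simp
    norm_num
  rw [h2] at h1
  have h3 : 1 / (4 * (n:ℝ)) < 1 / 4 := by
    apply one_div_lt_one_div_of_lt <;> linarith
  have h4 := norm_nonneg x
  nlinarith

/-- The lower bound for the measure of the set where the Hessian is large. -/
lemma decay {lam Lam κ ε e : ℝ} (hn : 3 ≤ n) (hlam : 0 < lam) (hle : lam ≤ Lam)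
    (hR : 2 ^ (n + 4) ≤ Lam / lam) (hκ : κ = (4 / (Lam / lam)) ^ (n - 1))
    (hε : ε = 2 * (κ * C1 n)) (hε1 : ε ≤ 1 / 2) (he : HessianEstimate n lam Lam e) :
    e ≤ 6 * ε := by
  obtain ⟨he0, C, hC⟩ := he
  have hn0 : (3:ℝ) ≤ n := by exact_mod_cast hn
  have hp : (0:ℝ) < (1 / (n:ℝ)) ^ n := by positivity
  refine exponent_le (K := 4 / (1 / (n:ℝ)) ^ n * C * 2 ^ e) hε1 he0 fun m => ?_
  set R : ℝ := Lam / lam with hRdef
  obtain ⟨T, hT⟩ : ∃ T : ℝ, T = (2:ℝ) ^ ((m:ℝ) / 2) := ⟨_, rfl⟩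
  have hT0 : 0 < T := by rw [hT]; positivity
  have hT2 : T ^ 2 ≤ 2 ^ m := by
    rw [hT, ← Real.rpow_natCast, ← Real.rpow_mul (by norm_num), ← Real.rpow_natCast]
    apply le_of_eq
    congr 1
    push_cast
    ring
  have hgood := good_st0 hn hR hκ hε (by linarith) hT0 m hT2
  obtain ⟨a, ha⟩ := exists_vector (card_st0 hn)
  have ha1 : ∀ j, |a j| ≤ 1 := by
    intro j
    apply abs_le_of_mem_st0 (n := n)
    rw [← ha]
    exact Multiset.mem_map_of_mem _ (Finset.mem_univ j)
  have hKa : Kv R a := by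
    unfold Kv
    rw [ha]
    exact inK_st0 hn hR
  have hq : 0 < (1 - ε) ^ m := pow_pos (by linarith) m
  obtain ⟨δ, hδ⟩ : ∃ δ, δ = min (1 / 2) ((1 - ε) ^ m / 4) := ⟨_, rfl⟩
  have hδ0 : 0 < δ := by rw [hδ]; positivity
  have hδ1 : δ ≤ 1 / 2 := by rw [hδ]; exact min_le_left _ _
  have hδ2 : δ ≤ (1 - ε) ^ m / 4 := by rw [hδ]; exact min_le_right _ _
  obtain ⟨φ, hφC, hφ0, hφδ, hφK, hvol⟩ := realize hgood n a ha hKa
    (fun _ : Fin n => -(1 / (2 * (n:ℝ)))) (fun _ => 1 / (2 * (n:ℝ)))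
    (fun _ => by
      have : 0 < 1 / (2 * (n:ℝ)) := by positivity
      linarith) δ hδ0
  set U : (Fin n → ℝ) → ℝ := fun y => quad a y + φ y with hU
  have hUC : ContDiff ℝ 2 U := (quad_contDiff a).add hφC
  have hUd : ∀ j y, d2 j U y = a j + d2 j φ y := by
    intro j y
    rw [hU, d2_add (quad_contDiff a) hφC, d2_quad]
  have hUK : ∀ x, Kv (Lam / lam) (fun j => d2 j U x) := by
    intro x
    simp only [hUd]
    exact hφK x
  have hS := inS_of hUC hlam hle hUK
  have hb : ∀ x ∈ Metric.ball (0 : E n) 1, |(fun y : E n => U y.ofLp) x| ≤ 1 := by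
    intro x hx
    have h1 := abs_quad_le ha1 hx
    have h2 := hφδ x.ofLp
    calc |quad a x.ofLp + φ x.ofLp| ≤ |quad a x.ofLp| + |φ x.ofLp| := abs_add_le _ _
      _ ≤ 1 := by linarith
  have h1 := hC _ hS hb (T / 2) (by positivity)
  have hsub : (WithLp.ofLp : E n → (Fin n → ℝ)) ⁻¹' (bigSet T a φ
      (fun _ : Fin n => -(1 / (2 * (n:ℝ)))) (fun _ => 1 / (2 * (n:ℝ)))) ⊆
      {x : E n | x ∈ Metric.ball (0 : E n) (1 / 2) ∧
        ENNReal.ofReal (T / 2) < Theta (fun y : E n => U y.ofLp) x} := by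
    rintro x ⟨hx, j, hj⟩
    have hx2 := ball_of_box hn hx
    refine ⟨hx2, ?_⟩
    have hx1 : x ∈ Metric.ball (0 : E n) 1 := Metric.ball_subset_ball (by norm_num) hx2
    refine lt_of_lt_of_le ?_ (theta_ge hUC hx1 j)
    rw [ENNReal.ofReal_lt_ofReal_iff_of_nonneg (by positivity), hUd]
    linarith
  have h2 : volume (bigSet T a φ (fun _ : Fin n => -(1 / (2 * (n:ℝ))))
      (fun _ => 1 / (2 * (n:ℝ)))) ≤ ENNReal.ofReal (C * (T / 2) ^ (-e)) := by
    refine le_trans ?_ h1
    refine le_trans (le_of_eq ?_) (measure_mono hsub)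
    exact ((PiLp.volume_preserving_ofLp (Fin n)).measure_preimage
      (measurableSet_bigSet T a hφC _ _).nullMeasurableSet).symm
  have h3 := ENNReal.toReal_mono ENNReal.ofReal_ne_top h2
  rw [ENNReal.toReal_ofReal'] at h3
  have h4 := hvol.trans h3
  have h5 : ∏ _j : Fin n, (1 / (2 * (n:ℝ)) - -(1 / (2 * (n:ℝ)))) = (1 / (n:ℝ)) ^ n := by
    rw [Finset.prod_const, Finset.card_univ, Fintype.card_fin]
    congr 1
    field_simp
    norm_num
  rw [h5] at h4
  have h6 : (1 - ε) ^ m / 4 * (1 / (n:ℝ)) ^ n ≤ ((1 - ε) ^ m / 2 - δ) * (1 / (n:ℝ)) ^ n :=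
    mul_le_mul_of_nonneg_right (by linarith) hp.le
  have h7 : 0 < (1 - ε) ^ m / 4 * (1 / (n:ℝ)) ^ n := by positivity
  have h8 : (1 - ε) ^ m / 4 * (1 / (n:ℝ)) ^ n ≤ C * (T / 2) ^ (-e) := by
    rcases le_max_iff.1 (h6.trans h4) with h | h
    · exact h
    · linarith
  have h9 : (T / 2) ^ (-e) = 2 ^ e * (2:ℝ) ^ (-((m:ℝ) * (e / 2))) := by
    have : T / 2 = (2:ℝ) ^ ((m:ℝ) / 2 - 1) := by
      rw [hT, Real.rpow_sub (by norm_num), Real.rpow_one]
    rw [this, ← Real.rpow_mul (by norm_num), ← Real.rpow_add (by norm_num)]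
    congr 1
    ring
  rw [h9] at h8
  rw [show 4 / (1 / (n:ℝ)) ^ n * C * 2 ^ e * (2:ℝ) ^ (-((m:ℝ) * (e / 2))) =
    (C * (2 ^ e * (2:ℝ) ^ (-((m:ℝ) * (e / 2))))) * 4 / (1 / (n:ℝ)) ^ n by ring]
  rw [le_div_iff₀ hp]
  linarith

/-- **Q1, affirmative answer.** For every `n ≥ 3` there is a constant `C > 0` such that the optimal
exponent satisfies `ε*(n, lam, Lam) ≤ C (Lam / lam) ^ (1 - n)` whenever `0 < lam ≤ Lam` and the
ratio `Lam / lam` is large enough. -/
theorem result (n : ℕ) (hn : 3 ≤ n) : ∃ C : ℝ, 0 < C ∧ ∃ R₀ : ℝ, ∀ lam Lam : ℝ, 0 < lam →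
    lam ≤ Lam → R₀ ≤ Lam / lam →
      epsStar n lam Lam ≤ ENNReal.ofReal (C * (Lam / lam) ^ (1 - (n:ℝ))) := by
  have hC1 := C1_pos n
  refine ⟨12 * C1 n * 4 ^ (n - 1), by positivity, max (2 ^ (n + 4)) (16 * C1 n), ?_⟩
  intro lam Lam hlam hle hR₀
  have hR1 : (2:ℝ) ^ (n + 4) ≤ Lam / lam := (le_max_left _ _).trans hR₀
  have hR2 : 16 * C1 n ≤ Lam / lam := (le_max_right _ _).trans hR₀
  set R : ℝ := Lam / lam with hR
  have hR0 : 0 < R := lt_of_lt_of_le (by positivity) hR1
  have hR4 : 4 ≤ R := by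
    refine le_trans ?_ hR1
    rw [pow_add]
    have : (1:ℝ) ≤ 2 ^ n := one_le_pow₀ (by norm_num)
    linarith
  have hκ1 : (4 / R) ^ (n - 1) ≤ 4 / R := by
    have h1 : 4 / R ≤ 1 := by rw [div_le_one hR0]; exact hR4
    calc (4 / R) ^ (n - 1) ≤ (4 / R) ^ 1 :=
          pow_le_pow_of_le_one (by positivity) h1 (by omega)
      _ = 4 / R := pow_one _
  have hε1 : 2 * ((4 / R) ^ (n - 1) * C1 n) ≤ 1 / 2 := by
    have h2 : (4 / R) ^ (n - 1) * C1 n ≤ 4 / R * C1 n := mul_le_mul_of_nonneg_right hκ1 hC1.le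
    have h3 : 4 / R * C1 n ≤ 1 / 4 := by
      rw [div_mul_eq_mul_div, div_le_iff₀ hR0]
      linarith
    linarith
  unfold epsStar
  refine iSup₂_le fun e he => ?_
  apply ENNReal.ofReal_le_ofReal
  have h4 := decay hn hlam hle hR1 rfl rfl hε1 he
  have h5 : (4 / R) ^ (n - 1) = 4 ^ (n - 1) * R ^ (1 - (n:ℝ)) := by
    rw [div_pow, div_eq_mul_inv]
    congr 1
    rw [← Real.rpow_natCast, ← Real.rpow_neg hR0.le]
    congr 1
    push_cast [Nat.cast_sub (by omega : 1 ≤ n)]
    ring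
  rw [← hR, h5] at h4
  linarith

end Pool.Agent.Results.MP_02db74_an.SharpExponent
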